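import Pool.Agent.H76.RT.P

/-!
# THEOREM R, (F): no virtual type has uncountably many virtual one point extensions (module H76/RT/F)

`Z`: an uncountable set of one point extensions of `v`, all of whose members but countably many have the class
`q.c g` at level `g` (for every `g`).
(a) `W_countable`: the virtual points `w` which are `m • y` for uncountably many `y ∈ Z` are countably many.
(b) `Dset Z y`: the `m` such that `m • y` is below uncountably many `y' ∈ Z` (in some joint type). `D_attained`: for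
uncountably many `y' ∈ Z` some joint type has exactly this cut.
(c) `exists_w`: there are `w ∈ W` and a joint type `(w, y)` in which the part of `y` below `w` is `Dset Z y`.
(d) `F_final`: apply `P_ind` over one `w` which serves uncountably many `y`: some `m • y` not generated by `w` and `v`
would be in `Dset Z y`.
-/

set_option autoImplicit false

namespace Pool.H76.RT

open Set Ordinal Pool.H55.RT Pool.H87.MS
open Pool.H62.VT (Str Pos BF Std PI)
open Pool.H22.EN (VT Ext)

variable {Mo : Type} [Monoid Mo] [Encodable Mo] {B : Set (Str a2)} {ι κ μ : Type}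
  {θ : Ordinal.{0}}

theorem jn_of {k : VT B (Option (Option ι))} {y0 y : VT B (Option ι)}
    {P : Str a2 → (Option (Option ι) → ℕ) → Prop} (h1 : k.res some = y0)
    (h2 : k.res (Option.map some) = y) {b : Ordinal.{0}} {A : Str a2}
    {T : Option (Option ι) → ℕ} (hT : k.c b A T)
    (hP : ∀ A' T', A' ∈ B → E 0 A T A' T' → P A' T') : Jn y0 y P :=
  ⟨k, h1, h2, fun _ A' T' h' => hP A' T' (k.mem h') (vt_e0 hT h')⟩

/-- `m` times the last but one point is below the last point -/
def KS (m : Mo) (A : Str a2) (T : Option (Option ι) → ℕ) : Prop :=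
  ac A m (T (some none)) ∈ Orb (ac (Mo := Mo) A) (T none)

/-- `m` times the last but one point is below the last point and not in the base -/
def SCm (m : Mo) (A : Str a2) (T : Option (Option ι) → ℕ) : Prop :=
  KS m A T ∧ ac A m (T (some none)) ∉ Gn Mo A (T ∘ some ∘ some)

theorem jn_scm (hM : ∀ A ∈ B, MS Mo A) {y0 y : VT B (Option ι)} (h : Jn y0 y (SC Mo)) :
    ∃ m : Mo, Jn y0 y (SCm m) := by
  obtain ⟨k, h1, h2, h3⟩ := h
  obtain ⟨A, T, hT⟩ := k.ne (omega_pos 1)
  obtain ⟨m, n, h4, h5⟩ := h3 _ A T hT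
  refine ⟨m, jn_of h1 h2 hT fun A' T' hA' hE => ⟨⟨n, ?_⟩, ?_⟩⟩
  · exact (e0_eq (hM _ (k.mem hT)) (hM _ hA') hE m n (some none) none).1 h4
  · exact (not_congr (e0_gn (hM _ (k.mem hT)) (hM _ hA') hE (some ∘ some) m (some none))).1 h5

/-- (P) for families, with a fixed common point -/
theorem P_ind (hS : Std B θ) (hM : ∀ A ∈ B, MS Mo A) [Finite ι] {s : VT B ι} {α : Type 1}
    {Z : Set α} {k : α → VT B (Option ι)} (hk : ∀ z ∈ Z, k z ∈ Ext s) (hinj : InjOn k Z)
    (hZ : ¬ Z.Countable) :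
    ∃ z0 ∈ Z, ∃ m : Mo, ¬ {z | z ∈ Z ∧ Jn (k z0) (k z) (SCm m)}.Countable := by
  have h1 : ¬ (k '' Z).Countable := fun h =>
    hZ ((mapsTo_image k Z).countable_of_injOn hinj h)
  obtain ⟨_, ⟨z0, hz0, rfl⟩, h2⟩ := P_lem (Mo := Mo) hS hM (s := s) (Y := k '' Z)
    (by rintro _ ⟨z, hz, rfl⟩; exact hk z hz) h1
  refine ⟨z0, hz0, ?_⟩
  by_contra hcon
  push Not at hcon
  apply h2
  refine ((countable_iUnion hcon).image k).mono ?_
  rintro _ ⟨⟨z, hz, rfl⟩, h3⟩
  obtain ⟨m, hm⟩ := jn_scm hM h3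
  exact ⟨z, mem_iUnion.2 ⟨m, hz, hm⟩, rfl⟩

/-- forgetting the last base point -/
theorem Jn.down {k0 k : VT B (Option (Option ι))} {P : Str a2 → (Option (Option (Option ι)) → ℕ) → Prop}
    {Q : Str a2 → (Option (Option ι) → ℕ) → Prop} (h : Jn k0 k P)
    (hQ : ∀ A T A' T', A ∈ B → P A T → A' ∈ B → E 0 A (T ∘ Option.map (Option.map some)) A' T' → Q A' T') :
    Jn (k0.res (Option.map some)) (k.res (Option.map some)) Q := by
  obtain ⟨l, h1, h2, h3⟩ := h
  obtain ⟨A, T, hT⟩ := l.ne (omega_pos 1)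
  refine jn_of (k := l.res (Option.map (Option.map some))) ?_ ?_ (VT.res_mem hT _)
    (fun A' T' hA' hE => hQ A T A' T' (l.mem hT) (h3 _ A T hT) hA' hE)
  · rw [← h1, VT.res_res, VT.res_res]
    rfl
  · rw [← h2, VT.res_res, VT.res_res]
    congr 1
    funext o
    cases o <;> rfl

/-- the virtual type of `m • y` -/
noncomputable def tmp (hM : ∀ A ∈ B, MS Mo A) (m : Mo) (y : VT B (Option ι)) : VT B (Option ι) :=
  tmv hM y (fun o => o.elim (m, none) (fun i => (1, some i)))

theorem tmp_mem (hM : ∀ A ∈ B, MS Mo A) (m : Mo) {y : VT B (Option ι)} {b : Ordinal.{0}}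
    {A : Str a2} {T : Option ι → ℕ} (h : y.c b A T) :
    (tmp hM m y).c b A (oc (T ∘ some) (ac A m (T none))) := by
  have h1 := tmv_mem hM h (fun o : Option ι => o.elim (m, none) (fun i => ((1 : Mo), some i)))
  have e : (fun k : Option ι => ac A ((fun o : Option ι => o.elim (m, none)
      (fun i => ((1 : Mo), some i))) k).1 (T ((fun o : Option ι => o.elim (m, none)
        (fun i => ((1 : Mo), some i))) k).2)) = oc (T ∘ some) (ac A m (T none)) := by
    funext o
    cases o with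
    | none => rfl
    | some i => exact (hM A (y.mem h)).ua.one _
  rwa [e] at h1

theorem tmp_ext (hM : ∀ A ∈ B, MS Mo A) (m : Mo) {v : VT B ι} {y : VT B (Option ι)}
    (h : y ∈ Ext v) : tmp hM m y ∈ Ext v := by
  refine eq_of_mem (s := y) (fun _ T => T ∘ some) (fun b A T hT => ?_) (fun b A T hT => ?_)
  · exact VT.res_mem (tmp_mem hM m hT) some
  · rw [← show y.res some = v from h]
    exact VT.res_mem hT some

section main

variable (hM : ∀ A ∈ B, MS Mo A) (Z : Set (VT B (Option ι)))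

/-- the virtual points below uncountably many members of `Z` -/
def Wset : Set (VT B (Option ι)) := {w | ¬ {y | y ∈ Z ∧ ∃ m, tmp hM m y = w}.Countable}

theorem W_countable {q : VT B (Option ι)}
    (hq : ∀ g, g < ω₁ → {y | y ∈ Z ∧ y.c g ≠ q.c g}.Countable) : (Wset hM Z).Countable := by
  have h1 : ∀ w ∈ Wset hM Z, ∃ m : Mo, ¬ {y | y ∈ Z ∧ tmp hM m y = w}.Countable := by
    intro w hw
    by_contra hcon
    push Not at hcon
    apply hw
    refine (countable_iUnion hcon).mono ?_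
    rintro y ⟨hy, m, hm⟩
    exact mem_iUnion.2 ⟨m, hy, hm⟩
  choose! m hm using h1
  refine MapsTo.countable_of_injOn (t := univ) (mapsTo_univ m _) ?_ countable_univ
  intro w hw w' hw' hmm
  have h2 : ∀ g, g < ω₁ → ∀ w ∈ Wset hM Z, w.c g = (tmp hM (m w) q).c g := by
    intro g hg w hw
    have h3 : ({y | y ∈ Z ∧ tmp hM (m w) y = w} \ {y | y ∈ Z ∧ y.c g ≠ q.c g}).Nonempty := by
      rw [nonempty_iff_ne_empty]
      intro h4
      exact hm w hw ((hq g hg).mono (sdiff_eq_empty.1 h4))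
    obtain ⟨y, ⟨hy, h4⟩, h5⟩ := h3
    have h6 : y.c g = q.c g := by
      by_contra h7
      exact h5 ⟨hy, h7⟩
    have h7 := tmv_congr hM h6 (fun o : Option ι => o.elim (m w, none) (fun i => ((1 : Mo), some i)))
    calc w.c g = (tmp hM (m w) y).c g := by rw [h4]
      _ = (tmp hM (m w) q).c g := h7
  refine eq_of_c fun g hg => ?_
  rw [h2 g hg w hw, h2 g hg w' hw', hmm]

private theorem ne_of_unc {α : Type*} {s : Set α} (h : ¬ s.Countable) : s.Nonempty := by
  rw [nonempty_iff_ne_empty]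
  rintro rfl
  exact h countable_empty

/-- the cut of `y` -/
def Dset (y : VT B (Option ι)) : Set Mo := {m | ¬ {y' | y' ∈ Z ∧ Jn y y' (KS m)}.Countable}

theorem D_mem_W {y : VT B (Option ι)} {m : Mo} (h : m ∈ Dset Z y) : tmp hM m y ∈ Wset hM Z := by
  intro h1
  apply h
  refine h1.mono ?_
  rintro y' ⟨hy', k, h2, h3, h4⟩
  refine ⟨hy', ?_⟩
  obtain ⟨A, T, hT⟩ := k.ne (omega_pos 1)
  obtain ⟨n, hn⟩ := h4 _ A T hT
  refine ⟨n, ?_⟩
  refine eq_of_mem (s := k) (fun A T => oc (T ∘ some ∘ some) (ac A m (T (some none))))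
    (fun b A' T' hT' => ?_) (fun b A' T' hT' => ?_)
  · rw [(vt_eq hM hT hT' m n (some none) none).1 hn]
    have h5 := tmp_mem hM n (VT.res_mem hT' (Option.map (some : ι → Option ι)))
    rw [h3] at h5
    exact h5
  · have h5 := tmp_mem hM m (VT.res_mem hT' (some : Option ι → Option (Option ι)))
    rw [h2] at h5
    exact h5

end main

/-- the part of the last but one point below the last point -/
def cutn (Mo : Type) [Monoid Mo] [Encodable Mo] (k : VT B (Option (Option ι))) : Set Mo :=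
  {m | (m, none) ∈ cut Mo k}

theorem mem_cutn (hM : ∀ A ∈ B, MS Mo A) {k : VT B (Option (Option ι))} {b : Ordinal.{0}}
    {A : Str a2} {T : Option (Option ι) → ℕ} (h : k.c b A T) (m : Mo) :
    m ∈ cutn Mo k ↔ KS m A T := cut_iff hM h (m, none)

theorem cutn_total (hM : ∀ A ∈ B, MS Mo A) [Finite ι] {y : VT B (Option ι)}
    {k k' : VT B (Option (Option ι))} (h : k.res some = y) (h' : k'.res some = y) :
    cutn Mo k ⊆ cutn Mo k' ∨ cutn Mo k' ⊆ cutn Mo k := by
  obtain ⟨A, T, hT⟩ := y.ne (Pool.H22.EN.succ_lt_omega_one (omega_pos 1))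
  have hA := (hM A (y.mem hT)).ua
  rw [← h] at hT
  obtain ⟨T1, h1, e1⟩ := VT.lift hT
  rw [h, ← h'] at hT
  obtain ⟨T2, h2, e2⟩ := VT.lift hT
  have e1' : T1 (some none) = T none := congrFun e1 none
  have e2' : T2 (some none) = T none := congrFun e2 none
  by_contra hcon
  push Not at hcon
  obtain ⟨h3, h4⟩ := hcon
  obtain ⟨m, hm1, hm2⟩ := not_subset.1 h3
  obtain ⟨n, hn1, hn2⟩ := not_subset.1 h4
  rw [mem_cutn hM h1] at hm1 hn2
  rw [mem_cutn hM h2] at hm2 hn1
  unfold KS at hm1 hn1 hm2 hn2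
  rw [e1'] at hm1 hn2
  rw [e2'] at hm2 hn1
  rcases orb_lin hA (orb_act (ac (Mo := Mo) A) m (T none)) (orb_act (ac (Mo := Mo) A) n (T none))
    with h5 | h5
  · exact hm2 (orb_trans hA hn1 h5)
  · exact hn2 (orb_trans hA hm1 h5)

/-- uncountably many joint types have one cut -/
theorem cutn_fin (hS : Std B θ) (hM : ∀ A ∈ B, MS Mo A) [Finite ι] (y : VT B (Option ι)) :
    ∃ F : Set (Set Mo), F.Finite ∧ ∀ (Z : Set (VT B (Option ι)))
      (R : VT B (Option (Option ι)) → Prop),
      ¬ {y' | y' ∈ Z ∧ ∃ k, k.res some = y ∧ k.res (Option.map some) = y' ∧ R k}.Countable →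
      ∃ C ∈ F, ¬ {y' | y' ∈ Z ∧ ∃ k, k.res some = y ∧ k.res (Option.map some) = y' ∧
        (R k ∧ cutn Mo k = C)}.Countable := by
  obtain ⟨F, hF, h1⟩ := cut_fin (Mo := Mo) hS hM y
  refine ⟨(fun φ : Set (Mo × Option ι) => {m : Mo | (m, none) ∈ φ}) '' F, hF.image _, ?_⟩
  intro Z R h2
  by_contra hcon
  push Not at hcon
  apply h2
  refine (((hF.image (fun φ : Set (Mo × Option ι) => {m : Mo | (m, none) ∈ φ})).countable.biUnion
    (t := fun C _ => {y' | y' ∈ Z ∧ ∃ k, k.res some = y ∧ k.res (Option.map some) = y' ∧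
        (R k ∧ cutn Mo k = C)}) hcon).union (h1.image (fun k => k.res (Option.map some)))).mono ?_
  rintro y' ⟨hy', k, h3, h4, h5⟩
  by_cases h6 : cut Mo k ∈ F
  · left
    exact mem_biUnion (mem_image_of_mem _ h6) ⟨hy', k, h3, h4, h5, rfl⟩
  · right
    exact ⟨k, ⟨h3, h6⟩, h4⟩

theorem D_attained (hS : Std B θ) (hM : ∀ A ∈ B, MS Mo A) [Finite ι] {v : VT B ι}
    {Z : Set (VT B (Option ι))} (hZv : Z ⊆ Ext v) (hZ : ¬ Z.Countable) {y : VT B (Option ι)}
    (hy : y ∈ Z) :
    ¬ {y' | y' ∈ Z ∧ ∃ k, k.res some = y ∧ k.res (Option.map some) = y' ∧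
      cutn Mo k = Dset Z y}.Countable := by
  obtain ⟨F, hF, h1⟩ := cutn_fin (Mo := Mo) hS hM y
  set U : Set Mo → Set (VT B (Option ι)) := fun C => {y' | y' ∈ Z ∧ ∃ k, k.res some = y ∧
    k.res (Option.map some) = y' ∧ cutn Mo k = C} with hU
  -- the cuts which occur uncountably often
  have hne : {C | C ∈ F ∧ ¬ (U C).Countable}.Nonempty := by
    obtain ⟨C, hC, h2⟩ := h1 Z (fun _ => True) (fun h2 => hZ (h2.mono fun y' hy' => by
      obtain ⟨k, h3, h4⟩ := exists_joint hS (hZv hy) (hZv hy')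
      exact ⟨hy', k, h3, h4, trivial⟩))
    refine ⟨C, hC, fun h3 => h2 (h3.mono ?_)⟩
    rintro y' ⟨hy', k, h4, h5, -, h6⟩
    exact ⟨hy', k, h4, h5, h6⟩
  obtain ⟨C, ⟨hC, hCU⟩, hmax⟩ := (hF.subset (sep_subset F fun C => ¬ (U C).Countable)).exists_maximal hne
  have hD : Dset Z y = C := by
    ext m
    constructor
    · intro hm
      obtain ⟨C', hC', h2⟩ := h1 Z (fun k => ∀ b A T, k.c b A T → KS m A T) hm
      have h3 : ¬ (U C').Countable := by
        refine fun h3 => h2 (h3.mono ?_)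
        rintro y' ⟨hy', k, h4, h5, -, h6⟩
        exact ⟨hy', k, h4, h5, h6⟩
      obtain ⟨y', hy', k, h4, h5, h6, h7⟩ := ne_of_unc h2
      obtain ⟨A, T, hT⟩ := k.ne (omega_pos 1)
      have hmC' : m ∈ C' := by
        rw [← h7, mem_cutn hM hT]
        exact h6 _ A T hT
      obtain ⟨z', hz', l, h8, h9, h10⟩ := ne_of_unc hCU
      rcases cutn_total (Mo := Mo) hM h4 h8 with h11 | h11
      · rw [h7, h10] at h11
        exact h11 hmC'
      · rw [h7, h10] at h11
        exact hmax ⟨hC', h3⟩ h11 hmC'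
    · intro hm h2
      apply hCU
      refine h2.mono ?_
      rintro y' ⟨hy', k, h4, h5, h6⟩
      refine ⟨hy', k, h4, h5, fun b A T hT => ?_⟩
      rw [← mem_cutn hM hT, h6]
      exact hm
  rw [hD]
  exact hCU

/-- (c) -/
theorem exists_w (hS : Std B θ) (hM : ∀ A ∈ B, MS Mo A) [Finite ι] {v : VT B ι}
    {Z : Set (VT B (Option ι))} (hZv : Z ⊆ Ext v) (hZ : ¬ Z.Countable) {y : VT B (Option ι)}
    (hy : y ∈ Z) :
    ∃ w ∈ Wset hM Z, Jn w y (fun A T => ∀ m : Mo, m ∈ Dset Z y →
      ac A m (T none) ∈ Orb (ac (Mo := Mo) A) (T (some none))) := by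
  have h1 := D_attained (Mo := Mo) hS hM hZv hZ hy
  set Z1 : Set (VT B (Option ι)) := {y' | y' ∈ Z ∧ ∃ k, k.res some = y ∧
    k.res (Option.map some) = y' ∧ cutn Mo k = Dset Z y} with hZ1
  have : Nonempty (VT B (Option (Option ι))) := by
    obtain ⟨_, -, k, -⟩ := ne_of_unc h1
    exact ⟨k⟩
  choose! k hk1 hk2 hk3 using fun (z : VT B (Option ι)) (hz : z ∈ Z1) => hz.2
  have hinj : InjOn k Z1 := by
    intro z hz z' hz' h
    rw [← hk2 z hz, ← hk2 z' hz', h]
  obtain ⟨z0, hz0, m, h2⟩ := P_ind (Mo := Mo) hS hM (s := y) (fun z hz => hk1 z hz) hinj h1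
  have hm : m ∈ Dset Z z0 := by
    intro h3
    apply h2
    refine h3.mono ?_
    rintro z ⟨hz, h4⟩
    refine ⟨hz.1, ?_⟩
    have h5 := Jn.down (Q := KS m) h4 (fun A T A' T' hA h6 hA' h7 =>
      (e0_orb (hM _ hA) (hM _ hA') h7 m (some none) none).1 h6.1)
    rwa [hk2 z0 hz0, hk2 z hz] at h5
  obtain ⟨z, hz, l, hl1, hl2, hl3⟩ := ne_of_unc h2
  obtain ⟨A, S, hS'⟩ := l.ne (omega_pos 1)
  have hT : (k z0).c 0 A (S ∘ some) := by
    rw [← hl1]
    exact VT.res_mem hS' some
  have hng := (hl3 _ A S hS').2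
  set T := S ∘ some with hTdef
  have hA := (hM A ((k z0).mem hT)).ua
  refine ⟨tmp hM m z0, D_mem_W hM Z hm, ?_⟩
  have h5 := tmv_mem hM hT (fun o : Option (Option ι) => o.elim ((1 : Mo), some none)
    (fun o' => o'.elim (m, none) (fun i => (1, some (some i)))))
  refine jn_of (k := tmv hM (k z0) (fun o : Option (Option ι) => o.elim ((1 : Mo), some none)
    (fun o' => o'.elim (m, none) (fun i => (1, some (some i)))))) ?_ ?_ h5 ?_
  · refine eq_of_mem (s := k z0) (fun A T => oc (T ∘ some ∘ some) (ac A m (T none)))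
      (fun b A' T' hT' => ?_) (fun b A' T' hT' => ?_)
    · have h6 := VT.res_mem (tmv_mem hM hT' (fun o : Option (Option ι) => o.elim ((1 : Mo), some none)
        (fun o' => o'.elim (m, none) (fun i => (1, some (some i)))))) (some : Option ι → Option (Option ι))
      have e : (fun i : Option (Option ι) => ac A' ((fun o : Option (Option ι) => o.elim ((1 : Mo), some none)
        (fun o' => o'.elim (m, none) (fun i => (1, some (some i))))) i).1
          (T' ((fun o : Option (Option ι) => o.elim ((1 : Mo), some none)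
            (fun o' => o'.elim (m, none) (fun i => (1, some (some i))))) i).2)) ∘ some =
          oc (T' ∘ some ∘ some) (ac A' m (T' none)) := by
        funext o
        cases o with
        | none => rfl
        | some i => exact (hM A' ((k z0).mem hT')).ua.one _
      rwa [e] at h6
    · have h6 := tmp_mem hM m (VT.res_mem hT' (Option.map (some : ι → Option ι)))
      rw [hk2 z0 hz0] at h6
      exact h6
  · refine eq_of_mem (s := k z0) (fun A T => T ∘ some)
      (fun b A' T' hT' => ?_) (fun b A' T' hT' => ?_)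
    · have h6 := VT.res_mem (tmv_mem hM hT' (fun o : Option (Option ι) => o.elim ((1 : Mo), some none)
        (fun o' => o'.elim (m, none) (fun i => (1, some (some i)))))) (Option.map (some : ι → Option ι))
      have e : (fun i : Option (Option ι) => ac A' ((fun o : Option (Option ι) => o.elim ((1 : Mo), some none)
        (fun o' => o'.elim (m, none) (fun i => (1, some (some i))))) i).1
          (T' ((fun o : Option (Option ι) => o.elim ((1 : Mo), some none)
            (fun o' => o'.elim (m, none) (fun i => (1, some (some i))))) i).2)) ∘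
              Option.map (some : ι → Option ι) = T' ∘ some := by
        funext o
        cases o with
        | none => exact (hM A' ((k z0).mem hT')).ua.one _
        | some i => exact (hM A' ((k z0).mem hT')).ua.one _
      rwa [e] at h6
    · have h6 := VT.res_mem hT' (some : Option ι → Option (Option ι))
      rw [hk1 z0 hz0] at h6
      exact h6
  · intro A' T' hA' hE m' hm'
    refine (e0_orb (hM _ ((k z0).mem hT)) (hM _ hA') hE m' none (some none)).1 ?_
    show ac A m' (ac A (1 : Mo) (T (some none))) ∈ Orb (ac (Mo := Mo) A) (ac A m (T none))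
    rw [hA.one]
    rw [← hk3 z0 hz0, mem_cutn hM hT] at hm'
    rcases orb_lin hA hm' (orb_act (ac (Mo := Mo) A) m (T none)) with h7 | h7
    · exact h7
    · exfalso
      apply hng
      obtain ⟨n, hn⟩ := h7
      refine ⟨none, n * m', ?_⟩
      rw [hA.mul]
      exact hn

/-- **(F)** -/
theorem F_final (hS : Std B θ) (hM : ∀ A ∈ B, MS Mo A) [Finite ι] (v : VT B ι) :
    (Ext v).Countable := by
  by_contra hcon
  obtain ⟨q, g0, hg0, hZ, hq⟩ := Pool.H22.EN.uq hS hcon
  set Z : Set (VT B (Option ι)) := {y | y ∈ Ext v ∧ y.c g0 = q.c g0} with hZdef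
  have hW : (Wset (Mo := Mo) hM Z).Countable := by
    refine W_countable hM Z (q := q) (fun g hg => (hq g hg).mono ?_)
    rintro y ⟨hy1, hy2⟩
    exact ⟨hy1.1, hy1.2, hy2⟩
  have h1 : ∃ w, ¬ {y | y ∈ Z ∧ Jn w y (fun A T => ∀ m : Mo, m ∈ Dset Z y →
      ac A m (T none) ∈ Orb (ac (Mo := Mo) A) (T (some none)))}.Countable := by
    by_contra hcon
    push Not at hcon
    apply hZ
    refine (hW.biUnion (t := fun w _ => {y | y ∈ Z ∧ Jn w y (fun A T => ∀ m : Mo, m ∈ Dset Z y →
      ac A m (T none) ∈ Orb (ac (Mo := Mo) A) (T (some none)))}) (fun w _ => hcon w)).mono ?_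
    intro y hy
    obtain ⟨w, hw, h2⟩ := exists_w (Mo := Mo) hS hM (v := v) (fun z hz => hz.1) hZ hy
    exact mem_biUnion hw ⟨hy, h2⟩
  obtain ⟨w, hw⟩ := h1
  set Zw : Set (VT B (Option ι)) := {y | y ∈ Z ∧ Jn w y (fun A T => ∀ m : Mo, m ∈ Dset Z y →
      ac A m (T none) ∈ Orb (ac (Mo := Mo) A) (T (some none)))} with hZw
  have : Nonempty (VT B (Option (Option ι))) := by
    obtain ⟨_, -, k, -⟩ := ne_of_unc hw
    exact ⟨k⟩
  choose! k hk1 hk2 hk3 using fun (z : VT B (Option ι)) (hz : z ∈ Zw) => hz.2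
  have hinj : InjOn k Zw := by
    intro z hz z' hz' h
    rw [← hk2 z hz, ← hk2 z' hz', h]
  obtain ⟨y, hy, m, h2⟩ := P_ind (Mo := Mo) hS hM (s := w) (fun z hz => hk1 z hz) hinj hw
  have hm : m ∈ Dset Z y := by
    intro h3
    apply h2
    refine h3.mono ?_
    rintro z ⟨hz, h4⟩
    refine ⟨hz.1, ?_⟩
    have h5 := Jn.down (Q := KS m) h4 (fun A T A' T' hA h6 hA' h7 =>
      (e0_orb (hM _ hA) (hM _ hA') h7 m (some none) none).1 h6.1)
    rwa [hk2 y hy, hk2 z hz] at h5
  obtain ⟨z, hz, l, hl1, hl2, hl3⟩ := ne_of_unc h2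
  obtain ⟨A, S, hS'⟩ := l.ne (omega_pos 1)
  have hT : (k y).c 0 A (S ∘ some) := by
    rw [← hl1]
    exact VT.res_mem hS' some
  apply (hl3 _ A S hS').2
  obtain ⟨n, hn⟩ := hk3 y hy _ A _ hT m hm
  exact ⟨none, n, hn⟩

end Pool.H76.RT
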