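import Pool.Agent.H76.RT.Sm

/-!
# THEOREM R, (P): uncountably many virtual extensions meet in the same cone (module H76/RT/P)

`SC A T`: the last two points lie in the same cone over the others.
`P_lem`: among uncountably many one point extensions of `s` there is one which is jointly realised with uncountably
many of them in the same cone over the base.
`cut_fin`: all but countably many one point extensions of `s` have one of finitely many cuts.
-/

set_option autoImplicit false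

namespace Pool.H76.RT

open Set Ordinal Pool.H55.RT Pool.H87.MS
open Pool.H62.VT (Str Pos BF Std PI)
open Pool.H22.EN (VT Ext)

variable {Mo : Type} [Monoid Mo] [Encodable Mo] {B : Set (Str a2)} {ι κ μ : Type}
  {θ : Ordinal.{0}}

/-- the last two points are in the same cone over the others -/
def SC (Mo : Type) [Monoid Mo] [Encodable Mo] (A : Str a2) (T : Option (Option ι) → ℕ) : Prop :=
  Nr (ac (Mo := Mo) A) (Gn Mo A (T ∘ some ∘ some)) (T (some none)) (T none)

/-- finitely many points represent all big cones -/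
theorem big_fin (hS : Std B θ) (hM : ∀ A ∈ B, MS Mo A) [Finite ι] {A : Str a2} (hA : A ∈ B)
    (t : ι → ℕ) : ∃ F : Finset ℕ, ∀ y, y ∉ Gn Mo A t → ¬ Small Mo B θ A t y →
      ∃ z ∈ F, Nr (ac (Mo := Mo) A) (Gn Mo A t) y z := by
  by_contra hcon
  push Not at hcon
  obtain ⟨f, h1, h2⟩ := exists_seq_of_forall_finset_exists
    (fun y => y ∉ Gn Mo A t ∧ ¬ Small Mo B θ A t y)
    (fun x y => ¬ Nr (ac (Mo := Mo) A) (Gn Mo A t) y x) (fun s _ => by
      obtain ⟨y, hy1, hy2, hy3⟩ := hcon s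
      exact ⟨y, ⟨hy1, hy2⟩, hy3⟩)
  refine big_finite hS hM le_rfl hS.lt hA t f (fun i => (h1 i).1) (fun i j hij => ?_)
    (fun i => (h1 i).2)
  rcases lt_or_gt_of_ne hij with h | h
  · exact fun h3 => h2 i j h (nr_symm h3)
  · exact h2 j i h

/-- joint types of finitely many extensions -/
theorem joint_many (hS : Std B θ) [Finite ι] {s : VT B ι} (f : ℕ → VT B (Option ι))
    (hf : ∀ n, f n ∈ Ext s) (N : ℕ) : ∃ J : VT B (ι ⊕ Fin N), J.res Sum.inl = s ∧
      ∀ i : Fin N, J.res (fun o : Option ι => o.elim (Sum.inr i) Sum.inl) = f i := by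
  induction N with
  | zero =>
    refine ⟨s.res (Sum.elim id Fin.elim0), ?_, fun i => i.elim0⟩
    rw [VT.res_res]
    exact VT.res_id s
  | succ N ih =>
    obtain ⟨J, h1, h2⟩ := ih
    obtain ⟨τ, h3, h4, h5⟩ := VT.amal hS J (f N) Sum.inl some (h1.trans (hf N).symm)
    refine ⟨τ.res (Sum.elim (fun i => Sum.inl (Sum.inl i))
      (Fin.lastCases (Sum.inr none) (fun i => Sum.inl (Sum.inr i)))), ?_, ?_⟩
    · rw [VT.res_res, ← h1, ← h3, VT.res_res]
      rfl
    · intro i
      rw [VT.res_res]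
      refine Fin.lastCases ?_ (fun i => ?_) i
      · refine eq_of_mem (s := τ) (fun _ T => T ∘ Sum.inr) (fun b A T hT => ?_) (fun b A T hT => ?_)
        · have h6 := VT.res_mem hT ((Sum.elim (fun i => Sum.inl (Sum.inl i))
            (Fin.lastCases (Sum.inr none) (fun i => Sum.inl (Sum.inr i)))) ∘
              fun o : Option ι => o.elim (Sum.inr (Fin.last N)) Sum.inl)
          have e : T ∘ ((Sum.elim (fun i => Sum.inl (Sum.inl i))
            (Fin.lastCases (Sum.inr none) (fun i => Sum.inl (Sum.inr i)))) ∘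
              fun o : Option ι => o.elim (Sum.inr (Fin.last N)) Sum.inl) = T ∘ Sum.inr := by
            funext o
            cases o with
            | none => simp
            | some i => exact h5 b A T hT i
          rwa [e] at h6
        · have h6 := VT.res_mem hT (Sum.inr : Option ι → (ι ⊕ Fin N) ⊕ Option ι)
          rw [h4] at h6
          exact h6
      · have e : ((Sum.elim (fun i => Sum.inl (Sum.inl i))
            (Fin.lastCases (Sum.inr none) (fun i => Sum.inl (Sum.inr i)))) ∘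
              fun o : Option ι => o.elim (Sum.inr i.castSucc) Sum.inl) =
            (Sum.inl : ι ⊕ Fin N → (ι ⊕ Fin N) ⊕ Option ι) ∘
              (fun o : Option ι => o.elim (Sum.inr i) Sum.inl) := by
          funext o
          cases o with
          | none => simp
          | some i => rfl
        rw [e, ← VT.res_res, h3, h2 i]
        rfl

theorem P_lem (hS : Std B θ) (hM : ∀ A ∈ B, MS Mo A) [Finite ι] {s : VT B ι}
    {Y : Set (VT B (Option ι))} (hYs : Y ⊆ Ext s) (hY : ¬ Y.Countable) :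
    ∃ y0 ∈ Y, ¬ {y | y ∈ Y ∧ Jn y0 y (SC Mo)}.Countable := by
  by_contra hcon
  push Not at hcon
  have hY' : ¬ {y | y ∈ Y ∧ Bg Mo θ y}.Countable := by
    intro h
    apply hY
    refine (h.union (small_countable (Mo := Mo) hS hM s)).mono fun y hy => ?_
    by_cases hb : Bg Mo θ y
    · exact Or.inl ⟨hy, hb⟩
    · exact Or.inr ⟨hYs hy, hb⟩
  obtain ⟨f, h1, h2⟩ := exists_seq_of_forall_finset_exists
    (fun y => y ∈ Y ∧ Bg Mo θ y) (fun x y => ¬ Jn x y (SC Mo)) (fun F hF => by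
      by_contra h3
      push Not at h3
      apply hY'
      refine (F.countable_toSet.biUnion (t := fun x _ => {y | y ∈ Y ∧ Jn x y (SC Mo)})
        (fun x hx => hcon x (hF x hx).1)).mono ?_
      rintro y ⟨hy1, hy2⟩
      obtain ⟨x, hx, hxy⟩ := h3 y ⟨hy1, hy2⟩
      exact Set.mem_biUnion hx ⟨hy1, hxy⟩)
  have hθ : θ + 1 < ω₁ := Pool.H22.EN.succ_lt_omega_one hS.lt
  obtain ⟨A0, t0, h0⟩ := s.ne hθ
  obtain ⟨F, hF⟩ := big_fin (Mo := Mo) hS hM (s.mem h0) t0
  obtain ⟨J, hJ1, hJ2⟩ := joint_many hS f (fun n => hYs (h1 n).1) (F.card + 1)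
  rw [← hJ1] at h0
  obtain ⟨T, hT, hTt⟩ := VT.lift h0
  have hmem : ∀ i : Fin (F.card + 1), (f i).c θ A0 (T ∘ fun o : Option ι => o.elim (Sum.inr i) Sum.inl) := by
    intro i
    rw [← hJ2 i]
    exact VT.res_mem hT _
  have hz : ∀ i : Fin (F.card + 1), ∃ z ∈ F, Nr (ac (Mo := Mo) A0) (Gn Mo A0 t0) (T (Sum.inr i)) z := by
    intro i
    obtain ⟨h3, h4⟩ := (h1 i).2 θ A0 _ le_rfl (hmem i)
    have e : (T ∘ fun o : Option ι => o.elim (Sum.inr i) Sum.inl) ∘ some = t0 := hTt
    rw [e] at h3 h4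
    exact hF _ h3 h4
  choose z hzF hz using hz
  obtain ⟨i, -, j, -, hij, hzz⟩ := Finset.exists_ne_map_eq_of_card_lt_of_maps_to
    (s := (Finset.univ : Finset (Fin (F.card + 1)))) (t := F) (by simp) (f := z) (fun i _ => hzF i)
  have hA0 := (hM A0 (J.mem hT)).ua
  have hnr : Nr (ac (Mo := Mo) A0) (Gn Mo A0 t0) (T (Sum.inr i)) (T (Sum.inr j)) := by
    refine nr_trans hA0 (hz i) (nr_symm ?_)
    rw [hzz]
    exact hz j
  have key : ∀ i j : Fin (F.card + 1), i < j →
      Nr (ac (Mo := Mo) A0) (Gn Mo A0 t0) (T (Sum.inr i)) (T (Sum.inr j)) → False := by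
    intro i j hij hnr
    refine h2 i j hij ⟨J.res (fun o : Option (Option ι) => o.elim (Sum.inr j)
      (fun o' => o'.elim (Sum.inr i) Sum.inl)), ?_, ?_, ?_⟩
    · rw [VT.res_res, ← hJ2 i]
      rfl
    · rw [VT.res_res, ← hJ2 j]
      congr 1
      funext o
      cases o <;> rfl
    · intro b A T' hT'
      have h3 := VT.res_mem hT (fun o : Option (Option ι) => o.elim (Sum.inr j)
        (fun o' => o'.elim (Sum.inr i) Sum.inl))
      refine (vt_nr hM h3 hT' (some ∘ some) (some none) none).1 ?_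
      have e : (T ∘ fun o : Option (Option ι) => o.elim (Sum.inr j)
        (fun o' => o'.elim (Sum.inr i) Sum.inl)) ∘ some ∘ some = t0 := hTt
      rw [e]
      exact hnr
  rcases lt_or_gt_of_ne hij with h | h
  · exact key i j h hnr
  · exact key j i h (nr_symm hnr)

/-- the cut of a one point extension, named by the base -/
def cut (Mo : Type) [Monoid Mo] [Encodable Mo] (y : VT B (Option ι)) : Set (Mo × ι) :=
  {q | ∀ b A T, y.c b A T → ac A q.1 (T (some q.2)) ∈ Orb (ac (Mo := Mo) A) (T none)}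

theorem cut_iff (hM : ∀ A ∈ B, MS Mo A) {y : VT B (Option ι)} {b : Ordinal.{0}} {A : Str a2}
    {T : Option ι → ℕ} (h : y.c b A T) (q : Mo × ι) :
    q ∈ cut Mo y ↔ ac A q.1 (T (some q.2)) ∈ Orb (ac (Mo := Mo) A) (T none) :=
  ⟨fun h1 => h1 b A T h, fun h1 _ _ _ h' => (vt_orb hM h h' q.1 (some q.2) none).1 h1⟩

theorem cut_fin (hS : Std B θ) (hM : ∀ A ∈ B, MS Mo A) [Finite ι] (s : VT B ι) :
    ∃ F : Set (Set (Mo × ι)), F.Finite ∧ {y | y ∈ Ext s ∧ cut Mo y ∉ F}.Countable := by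
  have hθ : θ + 1 < ω₁ := Pool.H22.EN.succ_lt_omega_one hS.lt
  obtain ⟨A0, t0, h0⟩ := s.ne hθ
  obtain ⟨F, hF⟩ := big_fin (Mo := Mo) hS hM (s.mem h0) t0
  refine ⟨(fun z => {q : Mo × ι | ac A0 q.1 (t0 q.2) ∈ Orb (ac (Mo := Mo) A0) z}) '' F,
    F.finite_toSet.image _, (small_countable (Mo := Mo) hS hM s).mono ?_⟩
  rintro y ⟨hy, hc⟩
  refine ⟨hy, fun hb => hc ?_⟩
  have h0' : (y.res some).c (θ + 1) A0 t0 := by
    rw [hy]
    exact h0
  obtain ⟨T, hT, hTt⟩ := VT.lift h0'
  obtain ⟨h3, h4⟩ := hb θ A0 T le_rfl hT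
  rw [hTt] at h3 h4
  obtain ⟨z, hz, hnr⟩ := hF _ h3 h4
  refine ⟨z, hz, ?_⟩
  have hA0 := (hM A0 (s.mem h0)).ua
  ext q
  rw [cut_iff hM hT]
  have e : T (some q.2) = t0 q.2 := congrFun hTt q.2
  rw [e]
  exact mem_cu hA0 (gen_clo hA0 t0) (x := T none) (z := z) hnr ⟨q.2, q.1, rfl⟩

end Pool.H76.RT
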