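import Pool.Agent.H76.RT.Vt
import Pool.Agent.H87.MS.Pl
import Pool.Agent.H55.RT.Glue

/-!
# THEOREM R, (S): the virtual extensions in small places are countably many (module H76/RT/Sm)

`Bg θ y`: in all members `(A, T)` of `y` of level at least `θ` the last point is not generated by the others and its
cone over the others is big.
-/

set_option autoImplicit false

namespace Pool.H76.RT

open Set Ordinal Pool.H55.RT Pool.H87.MS
open Pool.H62.VT (Str Pos BF Std PI)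
open Pool.H22.EN (VT Ext)

variable {Mo : Type} [Monoid Mo] [Encodable Mo] {B : Set (Str a2)} {ι κ μ : Type}

/-- the last point lies in a big cone -/
def Bg (Mo : Type) [Monoid Mo] [Encodable Mo] (θ : Ordinal.{0}) (y : VT B (Option ι)) : Prop :=
  ∀ b A T, θ ≤ b → y.c b A T →
    T none ∉ Gn Mo A (T ∘ some) ∧ ¬ Small Mo B θ A (T ∘ some) (T none)

/-- smallness depends on the class only -/
theorem small_congr {b : Ordinal.{0}} {A A' : Str a2} {t t' : ι → ℕ} {y y' : ℕ}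
    (h : CE Mo b A t y A' t' y') (hs : Small Mo B b A t y) : Small Mo B b A' t' y' := by
  obtain ⟨C, h1, h2, h3⟩ := hs
  exact ⟨C, h1, h2, fun A'' hA'' t'' y'' h4 h5 => h3 A'' hA'' t'' y'' h4 (CE.trans h h5)⟩

/-- pigeonhole along the countable levels -/
theorem pig {α : Type*} {C : Set α} (hC : C.Countable) (P : Ordinal.{0} → α → Prop)
    (hanti : ∀ b b' x, b ≤ b' → P b' x → P b x) {θ : Ordinal.{0}} (hθ : θ < ω₁)
    (h : ∀ b, θ ≤ b → b < ω₁ → ∃ x ∈ C, P b x) : ∃ x ∈ C, ∀ b, b < ω₁ → P b x := by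
  by_contra hcon
  push Not at hcon
  have : Countable C := hC.to_subtype
  choose d hd1 hd2 using fun x : C => hcon x.1 x.2
  obtain ⟨D, hD, hdD⟩ := Pool.H62.VT.exists_bound d hd1
  obtain ⟨x, hx, h1⟩ := h (max θ D) (le_max_left _ _) (max_lt hθ hD)
  exact hd2 ⟨x, hx⟩ (hanti _ _ _ ((hdD ⟨x, hx⟩).trans (le_max_right _ _)) h1)

/-- the generated points -/
theorem gen_countable (hM : ∀ A ∈ B, MS Mo A) [Finite ι] (s : VT B ι) :
    {y | y ∈ Ext s ∧ ∃ b A T, y.c b A T ∧ T none ∈ Gn Mo A (T ∘ some)}.Countable := by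
  have : Countable ι := Finite.to_countable
  refine (countable_range fun q : Mo × ι =>
    tmv hM s (fun o : Option ι => o.elim q (fun j => (1, j)))).mono ?_
  rintro y ⟨hy, b, A, T, hT, i, m, h⟩
  refine ⟨(m, i), eq_of_mem (s := y) (fun _ T => T) (fun b' A' T' hT' => ?_)
    (fun b' A' T' hT' => hT')⟩
  have h1 : s.c b' A' (T' ∘ some) := by
    rw [← show y.res some = s from hy]
    exact VT.res_mem hT' some
  have h2 := tmv_mem hM h1 (fun o : Option ι => o.elim (m, i) (fun j => ((1 : Mo), j)))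
  have e : (fun k : Option ι => ac A' ((fun o : Option ι => o.elim (m, i) (fun j => ((1 : Mo), j))) k).1
      ((T' ∘ some) ((fun o : Option ι => o.elim (m, i) (fun j => ((1 : Mo), j))) k).2)) = T' := by
    funext o
    have hA' := (hM A' (y.mem hT')).ua
    cases o with
    | none =>
      have h3 := (vt_eq hM hT hT' (1 : Mo) m none (some i)).1
        (by rw [(hM A (y.mem hT)).ua.one]; exact h)
      rw [hA'.one] at h3
      exact h3.symm
    | some j => exact hA'.one _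
  rwa [e] at h2

/-- the extensions in one small place -/
theorem place_countable {θ : Ordinal.{0}} (hθ : θ < ω₁) (hM : ∀ A ∈ B, MS Mo A) [Finite ι]
    (s : VT B ι) {A0 : Str a2} {t0 : ι → ℕ} {p : ℕ} (hsm : Small Mo B θ A0 t0 p) (hA0 : A0 ∈ B) :
    {y | y ∈ Ext s ∧ (∀ b A T, y.c b A T → T none ∉ Gn Mo A (T ∘ some)) ∧
      y.c θ A0 (oc t0 p)}.Countable := by
  obtain ⟨C, hC, hC1, hC2⟩ := hsm
  set Y : Set (VT B (Option ι)) := {y | y ∈ Ext s ∧ (∀ b A T, y.c b A T →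
    T none ∉ Gn Mo A (T ∘ some)) ∧ y.c θ A0 (oc t0 p)} with hY
  set R : Set ((Str a2 × (ι → ℕ) × ℕ) × ℕ) := C ×ˢ (Set.univ : Set ℕ) with hR
  have hRc : R.Countable := hC.prod countable_univ
  have h1 : ∀ y ∈ Y, ∃ x ∈ R, ∀ b, b < ω₁ → ∃ A T, y.c b A T ∧
      CPI Mo A (T ∘ some) (T none) x.1.1 x.1.2.1 x.2 := by
    rintro y ⟨hy1, hy2, hy3⟩
    refine pig hRc (fun b x => ∃ A T, y.c b A T ∧
      CPI Mo A (T ∘ some) (T none) x.1.1 x.1.2.1 x.2) ?_ hθ ?_
    · rintro b b' x hb ⟨A, T, h1, h2⟩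
      exact ⟨A, T, y.anti hb h1, h2⟩
    · intro b hb hb1
      obtain ⟨A, T, hT⟩ := y.ne hb1
      have hE : E θ A0 (oc t0 p) A (oc (T ∘ some) (T none)) := by
        rw [oc_eta]
        exact y.eqv hy3 (y.anti hb hT)
      have h2 : CE Mo θ A0 t0 p A (T ∘ some) (T none) :=
        (E.cp (hM _ hA0) (hM _ (y.mem hT)) hE).ce
      obtain ⟨c, hc, h3⟩ := hC2 A (y.mem hT) (T ∘ some) (T none) (hy2 _ _ _ hT) h2
      obtain ⟨w, -, -, h4⟩ := h3.pointed (hM _ (y.mem hT)) (hM _ (hC1 c hc).1) (hy2 _ _ _ hT)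
      exact ⟨(c, w), ⟨hc, mem_univ _⟩, A, T, hT, h4⟩
  have : Nonempty ((Str a2 × (ι → ℕ) × ℕ) × ℕ) := ⟨((A0, t0, p), 0)⟩
  choose! κ hκ1 hκ2 using h1
  refine MapsTo.countable_of_injOn (f := κ) (t := R) hκ1 ?_ hRc
  intro y hy y' hy' hyy
  apply VT.eq_of_meet
  intro b hb
  have hb1 := Pool.H22.EN.succ_lt_omega_one hb
  obtain ⟨A, T, h1, h2⟩ := hκ2 y hy (b + 1) hb1
  obtain ⟨A', T', h3, h4⟩ := hκ2 y' hy' (b + 1) hb1
  rw [← hyy] at h4
  have hA := hM A (y.mem h1)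
  have hA' := hM A' (y'.mem h3)
  have hc := hM _ (hC1 _ (hκ1 y hy).1).1
  have h5 : CP Mo b A (T ∘ some) (T none) A' (T' ∘ some) (T' none) :=
    (h2.trans hA hc (h4.symm hA' hc)).cp hA hA' b
  have h6 : s.c (b + 1) A (T ∘ some) := by
    rw [← show y.res some = s from hy.1]
    exact VT.res_mem h1 some
  have h7 : s.c (b + 1) A' (T' ∘ some) := by
    rw [← show y'.res some = s from hy'.1]
    exact VT.res_mem h3 some
  have h8 := E.of_cp hA hA' (s.eqv h6 h7) h5 (hy.2.1 _ _ _ h1) (hy'.2.1 _ _ _ h3)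
  rw [oc_eta, oc_eta] at h8
  have hbb : b ≤ b + 1 := le_self_add
  exact ⟨A', T', y.sat (y.anti hbb h1) (y'.mem h3) h8, y'.anti hbb h3⟩

/-- **(S)** -/
theorem small_countable {θ : Ordinal.{0}} (hS : Std B θ) (hM : ∀ A ∈ B, MS Mo A) [Finite ι]
    (s : VT B ι) : {y | y ∈ Ext s ∧ ¬ Bg Mo θ y}.Countable := by
  have hθ : θ + 1 < ω₁ := Pool.H22.EN.succ_lt_omega_one hS.lt
  obtain ⟨A0, t0, h0⟩ := s.ne hθ
  have h1 : ∀ p : ℕ, {y | y ∈ Ext s ∧ Small Mo B θ A0 t0 p ∧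
      (∀ b A T, y.c b A T → T none ∉ Gn Mo A (T ∘ some)) ∧ y.c θ A0 (oc t0 p)}.Countable := by
    intro p
    by_cases hp : Small Mo B θ A0 t0 p
    · refine (place_countable hS.lt hM s hp (s.mem h0)).mono ?_
      rintro y ⟨h1, -, h2⟩
      exact ⟨h1, h2⟩
    · refine countable_empty.mono ?_
      rintro y ⟨-, h1, -⟩
      exact absurd h1 hp
  refine ((gen_countable hM s).union (countable_iUnion h1)).mono ?_
  rintro y ⟨hy, hb⟩
  by_cases hg : ∃ b A T, y.c b A T ∧ T none ∈ Gn Mo A (T ∘ some)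
  · exact Or.inl ⟨hy, hg⟩
  · right
    push Not at hg
    unfold Bg at hb
    push Not at hb
    obtain ⟨b, A, T, hθb, hT, h2⟩ := hb
    have h3 := h2 (hg b A T hT)
    have h0' : (y.res some).c (θ + 1) A0 t0 := by
      rw [hy]
      exact h0
    obtain ⟨T0, h4, h5⟩ := VT.lift h0'
    refine mem_iUnion.2 ⟨T0 none, hy, ?_, hg, ?_⟩
    · refine small_congr (A := A) (t := T ∘ some) (y := T none) ?_ h3
      refine (E.cp (hM _ (y.mem hT)) (hM _ (s.mem h0)) ?_).ce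
      rw [oc_eta, ← h5, oc_eta]
      exact y.eqv (y.anti hθb hT) h4
    · rw [← h5, oc_eta]
      exact h4

end Pool.H76.RT
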