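import Pool.Agent.H55.RT.Lev
import Pool.Agent.H55.RT.Cone
import Pool.Agent.H22.EN.Vz
import Pool.Agent.H87.MS.Df

/-!
# THEOREM R: virtual types of sets with an action (module H76/RT/Vt)

`tmv hM s g`: the virtual type of the tuple of the terms `(g k).1 • s_((g k).2)`. Properties of level `0` (equality
of terms, membership in orbits, same cone) hold for all members of a virtual type or for none.
`Jn y0 y P`: some joint virtual type `(u, y0, y)` of the one point extensions `y0`, `y` all members of which have `P`.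
-/

set_option autoImplicit false

namespace Pool.H76.RT

open Set Ordinal Pool.H55.RT
open Pool.H62.VT (Str Pos BF Std PI)
open Pool.H22.EN (VT Ext)

variable {Mo : Type} [Monoid Mo] [Encodable Mo] {B : Set (Str a2)} {ι κ μ : Type}

/-- the virtual type of a tuple of terms -/
noncomputable def tmv (hM : ∀ A ∈ B, MS Mo A) (s : VT B ι) (g : κ → Mo × ι) : VT B κ :=
  s.map (fun A t k => ac A (g k).1 (t (g k).2))
    (fun _ A _ A' _ hA hA' h => E.terms (hM A hA) (hM A' hA') h g)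

theorem tmv_mem (hM : ∀ A ∈ B, MS Mo A) {s : VT B ι} {b : Ordinal.{0}} {A : Str a2} {T : ι → ℕ}
    (h : s.c b A T) (g : κ → Mo × ι) :
    (tmv hM s g).c b A (fun k => ac A (g k).1 (T (g k).2)) := VT.map_mem h

theorem tmv_congr (hM : ∀ A ∈ B, MS Mo A) {s s' : VT B ι} {b : Ordinal.{0}} (h : s.c b = s'.c b)
    (g : κ → Mo × ι) : (tmv hM s g).c b = (tmv hM s' g).c b := by
  funext A T
  show (b < ω₁ ∧ A ∈ B ∧ ∃ A₁ t, s.c b A₁ t ∧ _) = (b < ω₁ ∧ A ∈ B ∧ ∃ A₁ t, s'.c b A₁ t ∧ _)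
  rw [h]

/-- two virtual types are equal if they have a common member above every member of a third one -/
theorem eq_of_mem {s : VT B ι} {r r' : VT B κ} (F : Str a2 → (ι → ℕ) → κ → ℕ)
    (h : ∀ b A T, s.c b A T → r.c b A (F A T)) (h' : ∀ b A T, s.c b A T → r'.c b A (F A T)) :
    r = r' := by
  apply VT.eq_of_meet
  intro b hb
  obtain ⟨A, T, hT⟩ := s.ne hb
  exact ⟨A, F A T, h b A T hT, h' b A T hT⟩

/-- equality of the classes below `ω₁` is equality -/
theorem eq_of_c {s s' : VT B ι} (h : ∀ b, b < ω₁ → s.c b = s'.c b) : s = s' := by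
  apply VT.ext_c
  funext b
  by_cases hb : b < ω₁
  · exact h b hb
  · funext A t
    apply propext
    exact ⟨fun h1 => absurd (s.lt h1) hb, fun h1 => absurd (s'.lt h1) hb⟩

section level0

variable {A A' : Str a2} {T T' : ι → ℕ} {b b' : Ordinal.{0}}

theorem bf_one (h : E b A T A' T') : BF A univ A' univ 1 (prt T T') :=
  Pool.H62.VT.BF.level h (le_trans one_lt_omega0.le (omega_le_lv b))

theorem e0_eq (hA : MS Mo A) (hA' : MS Mo A') (h : E b A T A' T') (m n : Mo) (i j : ι) :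
    ac A m (T i) = ac A n (T j) ↔ ac A' m (T' i) = ac A' n (T' j) :=
  ac_eq_iff hA hA' (bf_one h) ⟨i, rfl⟩ ⟨j, rfl⟩ m n

theorem e0_orb (hA : MS Mo A) (hA' : MS Mo A') (h : E b A T A' T') (m : Mo) (i j : ι) :
    ac A m (T i) ∈ Orb (ac (Mo := Mo) A) (T j) ↔ ac A' m (T' i) ∈ Orb (ac (Mo := Mo) A') (T' j) :=
  exists_congr fun n => e0_eq hA hA' h m n i j

theorem e0_gn (hA : MS Mo A) (hA' : MS Mo A') (h : E b A T A' T') (f : κ → ι) (m : Mo) (i : ι) :
    ac A m (T i) ∈ Gn Mo A (T ∘ f) ↔ ac A' m (T' i) ∈ Gn Mo A' (T' ∘ f) :=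
  exists_congr fun _ => exists_congr fun n => e0_eq hA hA' h m n i _

theorem e0_nr (hA : MS Mo A) (hA' : MS Mo A') (h : E b A T A' T') (f : κ → ι) (i j : ι) :
    Nr (ac (Mo := Mo) A) (Gn Mo A (T ∘ f)) (T i) (T j) ↔
      Nr (ac (Mo := Mo) A') (Gn Mo A' (T' ∘ f)) (T' i) (T' j) :=
  exists_congr fun m => exists_congr fun n => and_congr (e0_eq hA hA' h m n i j)
    (not_congr (e0_gn hA hA' h f m i))

/-- members of a virtual type are equivalent at level `0` -/
theorem vt_e0 {s : VT B ι} (h : s.c b A T) (h' : s.c b' A' T') : E 0 A T A' T' :=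
  s.eqv (s.anti zero_le h) (s.anti zero_le h')

theorem vt_eq (hM : ∀ A ∈ B, MS Mo A) {s : VT B ι} (h : s.c b A T) (h' : s.c b' A' T') (m n : Mo)
    (i j : ι) : ac A m (T i) = ac A n (T j) ↔ ac A' m (T' i) = ac A' n (T' j) :=
  e0_eq (hM _ (s.mem h)) (hM _ (s.mem h')) (vt_e0 h h') m n i j

theorem vt_orb (hM : ∀ A ∈ B, MS Mo A) {s : VT B ι} (h : s.c b A T) (h' : s.c b' A' T') (m : Mo)
    (i j : ι) : ac A m (T i) ∈ Orb (ac (Mo := Mo) A) (T j) ↔
      ac A' m (T' i) ∈ Orb (ac (Mo := Mo) A') (T' j) :=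
  e0_orb (hM _ (s.mem h)) (hM _ (s.mem h')) (vt_e0 h h') m i j

theorem vt_gn (hM : ∀ A ∈ B, MS Mo A) {s : VT B ι} (h : s.c b A T) (h' : s.c b' A' T') (f : κ → ι)
    (m : Mo) (i : ι) : ac A m (T i) ∈ Gn Mo A (T ∘ f) ↔ ac A' m (T' i) ∈ Gn Mo A' (T' ∘ f) :=
  e0_gn (hM _ (s.mem h)) (hM _ (s.mem h')) (vt_e0 h h') f m i

theorem vt_nr (hM : ∀ A ∈ B, MS Mo A) {s : VT B ι} (h : s.c b A T) (h' : s.c b' A' T') (f : κ → ι)
    (i j : ι) : Nr (ac (Mo := Mo) A) (Gn Mo A (T ∘ f)) (T i) (T j) ↔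
      Nr (ac (Mo := Mo) A') (Gn Mo A' (T' ∘ f)) (T' i) (T' j) :=
  e0_nr (hM _ (s.mem h)) (hM _ (s.mem h')) (vt_e0 h h') f i j

end level0

/-- some joint type of the one point extensions `y0`, `y` has the property `P` -/
def Jn (y0 y : VT B (Option ι)) (P : Str a2 → (Option (Option ι) → ℕ) → Prop) : Prop :=
  ∃ k : VT B (Option (Option ι)), k.res some = y0 ∧ k.res (Option.map some) = y ∧
    ∀ b A T, k.c b A T → P A T

theorem Jn.mono {y0 y : VT B (Option ι)} {P Q : Str a2 → (Option (Option ι) → ℕ) → Prop}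
    (h : Jn y0 y P) (hPQ : ∀ A T, P A T → Q A T) : Jn y0 y Q := by
  obtain ⟨k, h1, h2, h3⟩ := h
  exact ⟨k, h1, h2, fun b A T hT => hPQ A T (h3 b A T hT)⟩

/-- joint types exist -/
theorem exists_joint {θ : Ordinal.{0}} (hS : Std B θ) [Finite ι] {v : VT B ι} {y0 y : VT B (Option ι)}
    (h0 : y0 ∈ Ext v) (h : y ∈ Ext v) :
    ∃ k : VT B (Option (Option ι)), k.res some = y0 ∧ k.res (Option.map some) = y := by
  obtain ⟨τ, h1, h2, h3⟩ := VT.amal hS y0 y some some (h0.trans h.symm)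
  refine ⟨τ.res (fun o => o.elim (Sum.inr none) Sum.inl), ?_, ?_⟩
  · rw [VT.res_res]
    exact h1
  · refine eq_of_mem (s := τ) (fun _ T => T ∘ Sum.inr) (fun b A T hT => ?_) (fun b A T hT => ?_)
    · have h4 := VT.res_mem (VT.res_mem hT (fun o => o.elim (Sum.inr none) Sum.inl)) (Option.map (some : ι → Option ι))
      have e : (T ∘ fun o : Option (Option ι) => o.elim (Sum.inr none) Sum.inl) ∘ Option.map (some : ι → Option ι) =
          T ∘ Sum.inr := by
        funext o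
        cases o with
        | none => rfl
        | some i => exact h3 b A T hT i
      rwa [e] at h4
    · have h4 := VT.res_mem hT (Sum.inr : Option ι → Option ι ⊕ Option ι)
      rwa [h2] at h4

end Pool.H76.RT
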